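import Pool.Agent.Helper911_Noise.Lim4

/-!
# Noise and the scaling limits of the exploration path of critical bond percolation on `ℤ²`

Critical bond percolation `ω` on `δ ℤ²` in the rectangle `D = (-A, B) × (0, H)`, with the
counterclockwise boundary arc from `a = t + i H` to `b = 0` wired and the other one dual-wired, and
its noisy version `ω^ε`, in which every edge is resampled with probability `ε`. The laws of the pair
of their exploration paths are tight when the mesh goes to `0`, and as long as `ε ≥ δ ^ a` for some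
`a < 3/4`, in every limit `(γ, γ')`:

* for every fixed set `S ⊆ D`, almost surely `dim (γ ∩ γ' ∩ S) ≤ dim S - 1/2`, and
  `γ ∩ γ' ∩ S` is empty if `S` has zero Hausdorff measure in dimension `1/2`; if `S` is σ-compact,
  `dim S - 1/2` is the essential supremum of the dimension of `γ ∩ γ' ∩ S`;
* almost surely `dim (γ ∩ γ') ≤ 3/2`, and, for every `t < 3/2`, `dim (γ ∩ γ') ≥ t` with probability
  at least `p0`, where `p0 > 0` depends only on the rectangle and the exponent;
* almost surely every subarc of `γ` and `γ'` has dimension `7/4` and no subarc of one of them is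
  contained in the other one.

Definitions: `Pool.Agent.H984R4.NP.Model` (`Rect`, `pos`, `clamp`, `pl`, `X`, `Rect.D`, `Rect.dm`,
`Rect.curve`, `Rect.time`), `Pool.Agent.H984R4.NP.Defs` (`Dm`, `Dm.edges`, `Dm.wir`, `Dm.cfg`,
`Dm.outer`, `Dm.walk`, `Dm.len`), `Pool.Agent.H984R3.Per.Defs` (states, `ae`, `mv`, `rt`, `nxt`,
`orb`), `Pool.Agent.Helper911_Noise.Pair` (`wt`, `pairM`, `pairLaw`) and
`Pool.Agent.Helper911_Noise.Lim` (`both`).
-/

set_option autoImplicit false

namespace Pool.Agent.Results.MP_6c8efb_pr.NoisyLimits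

open H984N MeasureTheory Filter Topology Pool.Agent.Helper911_Noise
open scoped ENNReal

theorem result (R : Rect) (a : ℝ) (ha0 : 0 < a) (ha : a < 3/4) :
    ∃ p0 : ℝ, 0 < p0 ∧ ∀ (δ : ℕ → ℝ), (∀ i, 0 < δ i) → Tendsto δ atTop (𝓝 0) →
      ∀ (ε : ℕ → unitInterval), (∀ i, δ i ^ a ≤ ε i) →
      (∃ φ : ℕ → ℕ, StrictMono φ ∧ ∃ ν : ProbabilityMeasure (X × X),
        Tendsto (fun i => pairLaw R (δ (φ i)) (ε (φ i))) atTop (𝓝 ν)) ∧
      ∀ ν : ProbabilityMeasure (X × X),
        Tendsto (fun i => pairLaw R (δ i) (ε i)) atTop (𝓝 ν) →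
        (∀ S : Set ℂ, S ⊆ R.D → ∀ᵐ p ∂(ν : Measure (X × X)),
          dimH (both p ∩ S) ≤ dimH S - 1 / 2 ∧ (μH[(1/2 : ℝ)] S = 0 → both p ∩ S = ∅)) ∧
        (∀ S : Set ℂ, IsSigmaCompact S → S ⊆ R.D →
          essSup (fun p : X × X => dimH (both p ∩ S)) (ν : Measure (X × X)) =
            dimH S - 1 / 2) ∧
        (∀ t : ℝ, t < 3/2 → ENNReal.ofReal p0 ≤
          (ν : Measure (X × X)) {p | ENNReal.ofReal t ≤ dimH (both p ∩ R.D)}) ∧
        ∀ᵐ p ∂(ν : Measure (X × X)), dimH (both p) ≤ 3 / 2 ∧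
          (∀ s t : unitInterval, s < t → dimH (p.1.1 '' Set.Icc s t) = 7 / 4 ∧
            dimH (p.2.1 '' Set.Icc s t) = 7 / 4) ∧
          ∀ s t : unitInterval, s < t → ¬ p.1.1 '' Set.Icc s t ⊆ Set.range p.2.1 ∧
            ¬ p.2.1 '' Set.Icc s t ⊆ Set.range p.1.1 := by
  obtain ⟨p0, hp0, h32⟩ := dim32 R ha0 ha
  refine ⟨p0, hp0, fun δ hδ hlim ε hε => ⟨pair_exists R hδ hlim ε, fun ν hν =>
    ⟨fun S hS => ?_, fun S hS hSD => ess_both R ha0 ha hδ hlim hε hν hS hSD,
      fun t ht => h32 δ hδ hlim ε hε ν hν t ht, pair_ae R ha0 ha hδ hlim hε hν⟩⟩⟩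
  have h := dim_lim R ha0 ha hδ hlim hε hν (D_open R) hS
  have e1 : (1 / 2 : ℝ≥0∞) = ENNReal.ofReal (1/2) := by
    rw [ENNReal.ofReal_div_of_pos (by norm_num)]; norm_num
  rw [e1]
  exact h

end Pool.Agent.Results.MP_6c8efb_pr.NoisyLimits
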