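import Pool.Agent.Helper911_Noise.Main

/-!
# Noise and the steps of the exploration path of critical bond percolation on `ℤ²`

Critical bond percolation in a lattice rectangle with Dobrushin boundary condition; `γ(ω)` is the
exploration path. `ω^ε` is obtained from `ω` when the state of every edge is resampled with
probability `ε`, independently. The expected number of common steps of `γ(ω)` and `γ(ω^ε)` is at
least `c n ^ (3/2)` and at most `C ε ^ (-s) n ^ (3/2)` for every `s > 1/3`; for `ε ≥ n ^ (-a)`,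
`a < 3/4`, only a small fraction of the steps of `γ(ω)` (which has about `n ^ (7/4)` steps) are
steps of `γ(ω^ε)`.

Definitions: `Pool.Agent.H984R4.NP.Defs` (`Dm`, `Dm.edges`, `Dm.wir`, `Dm.cfg`, `Dm.walk`, `Dm.len`,
`Dm.Shape`) and `Pool.Agent.H984R3.Per.Defs` (states, `ae`, `mv`, `rt`, `nxt`, `orb`).
-/

set_option autoImplicit false

namespace Pool.Agent.Results.MP_6c8efb_pr.NoisySteps

open H974 H984N H984P H389NS

/-- The law of the pair of `ω` (a uniformly distributed subset of `S`) and of `ω^ε` (the state of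
every edge of `S` is resampled with probability `ε`, independently): the probability of the pair
of `F` and `F'`. -/
noncomputable def weight (S : Finset Edg) (ε : ℝ) (F F' : Finset Edg) : ℝ := by
  classical exact
  ∏ e ∈ S, if (e ∈ F ↔ e ∈ F') then (2 - ε) / 4 else ε / 4

/-- The expectation of `h(ω, ω^ε)`. -/
noncomputable def mean (S : Finset Edg) (ε : ℝ) (h : Finset Edg → Finset Edg → ℝ) : ℝ :=
  ∑ F ∈ S.powerset, ∑ F' ∈ S.powerset, weight S ε F F' * h F F'

/-- The indicator of an event. -/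
noncomputable def one (P : Prop) : ℝ := by classical exact if P then 1 else 0

/-- The states which are visited by both exploration paths. -/
def commonStates (D : Dm) (F F' : Finset Edg) : Set St :=
  {σ | (∃ k ≤ D.len F, D.walk F k = σ) ∧ ∃ k ≤ D.len F', D.walk F' k = σ}

theorem mean_eq (S : Finset Edg) (ε : ℝ) (h : Finset Edg → Finset Edg → ℝ) :
    mean S ε h = E2 (fun _ => 1 - ε) S h := by
  unfold mean weight
  rw [A7.E2_eq]
  refine Finset.sum_congr rfl fun F _ => Finset.sum_congr rfl fun F' _ => ?_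
  congr 1
  unfold A7.wg
  refine Finset.prod_congr rfl fun e _ => ?_
  by_cases h : (e ∈ F ↔ e ∈ F')
  · rw [if_pos h, if_pos h]; ring
  · rw [if_neg h, if_neg h]; ring

theorem result (κ : ℝ) (hκ : 0 < κ) :
    -- the number of common steps
    (∃ c : ℝ, 0 < c ∧ ∀ s : ℝ, 1/3 < s → ∃ C : ℝ, 0 < C ∧ ∀ (D : Dm) (n ε : ℝ), 1 ≤ n →
      D.Shape κ n → 0 < ε → ε ≤ 1 →
      c * n ^ (3/2 : ℝ) ≤ mean D.edges ε (fun F F' => ((commonStates D F F').ncard : ℝ)) ∧
      mean D.edges ε (fun F F' => ((commonStates D F F').ncard : ℝ)) ≤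
        C * ε ^ (-s) * n ^ (3/2 : ℝ)) ∧
    -- noise sensitivity
    (∀ a η : ℝ, 0 < a → a < 3/4 → 0 < η → ∃ n0 : ℝ, 1 ≤ n0 ∧ ∀ (D : Dm) (n ε : ℝ), n0 ≤ n →
      D.Shape κ n → n ^ (-a) ≤ ε → ε ≤ 1 →
      mean D.edges ε (fun F F' => one (η * D.len F ≤ ((commonStates D F F').ncard : ℝ))) ≤
        η) := by
  refine ⟨?_, ?_⟩
  · obtain ⟨c, hc, h1⟩ := Helper911_Noise.common_lower hκ
    refine ⟨c, hc, fun s hs => ?_⟩
    obtain ⟨C, hC, h2⟩ := Helper911_Noise.common_upper hs
    refine ⟨C, hC, fun D n ε hn hD h0 h1' => ?_⟩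
    rw [mean_eq]
    refine ⟨h1 D n (1 - ε) hn hD (by linarith) (by linarith), ?_⟩
    have h3 := h2 D n (1 - ε) hD.ok hn hD.w_le hD.h_le (by linarith) (by linarith)
    rw [sub_sub_cancel] at h3
    exact h3
  · intro a η ha0 ha hη
    obtain ⟨n0, hn0, h⟩ := Helper911_Noise.sensitive hκ ha0 ha hη
    refine ⟨n0, hn0, fun D n ε hn hD h0 h1 => ?_⟩
    rw [mean_eq]
    have h3 := h D n (1 - ε) hn hD (by linarith) (by linarith)
    exact h3

end Pool.Agent.Results.MP_6c8efb_pr.NoisySteps
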