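import Pool.Agent.H940.GP.HalfPlane
import Pool.Agent.W424.NC.Win
import Pool.Agent.H974R2.Infinite

/-!
Bond percolation in the half-plane `ℤ × ℕ` with the negative half-axis open and the positive
half-axis closed, for `p ≤ 1/2`. The cluster `C₋` of the negative half-axis is traced by the
exploration path which starts at the origin. We study the excursion of `C₋`, and of the exploration
path, over the positive half-axis: its extent has exponential tails on the scale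
`(1/2 - p)^(-4/3)`, its mean is of order `(1/2 - p)^(-4/3)`, and it is negligible on the scale `n`,
at parameters `p n`, if and only if `(1/2 - p n) n^(3/4)` tends to infinity.
-/

namespace Pool.Agent.Results.MP_6c8efb_pr.OffCriticalExcursion

open Finset Filter Topology MeasureTheory
open scoped ENNReal

/-- The configuration in the half-plane: an edge of the half-plane which is not on the real axis
is open if `ω` says so; the edges `[x, x + 1]` of the real axis are open for `x < 0` and closed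
(erased) for `x ≥ 0`. -/
def config (ω : H974.sqLattice.edgeSet → Bool) : SimpleGraph (ℤ × ℤ) :=
  SimpleGraph.fromEdgeSet
    ({e | (∃ h : e ∈ H974.sqLattice.edgeSet, ω ⟨e, h⟩ = true) ∧ (∀ v ∈ e, 0 ≤ v.2) ∧
        ∃ v ∈ e, 0 < v.2} ∪
      {e | ∃ x : ℤ, x < 0 ∧ e = s((x, 0), (x + 1, 0))})

/-- The set `C₋` of the vertices of the negative half-axis and of all open clusters attached to
it: the cluster of the origin in the configuration. -/
def Cminus (ω : H974.sqLattice.edgeSet → Bool) : Set (ℤ × ℤ) :=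
  {v | (config ω).Reachable (0, 0) v}

/-- The event that `C₋` has a vertex with abscissa at least `r`. -/
def Reaches (r : ℕ) (ω : H974.sqLattice.edgeSet → Bool) : Prop :=
  ∃ v ∈ Cminus ω, (r:ℤ) ≤ v.1

/-- The probability that `C₋` has a vertex with abscissa at least `r`. -/
noncomputable def prob (p : unitInterval) (r : ℕ) : ℝ :=
  (H974.bondLaw p).real {ω | Reaches r ω}

/-- The extent of the excursion over the positive half-axis: the largest abscissa of a vertex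
of `C₋`. -/
noncomputable def extent (ω : H974.sqLattice.edgeSet → Bool) : ℝ≥0∞ :=
  ⨆ v ∈ Cminus ω, ((v.1.toNat : ℕ) : ℝ≥0∞)

/-- The mean extent of the excursion over the positive half-axis. -/
noncomputable def meanExtent (p : unitInterval) : ℝ≥0∞ :=
  ∫⁻ ω, extent ω ∂(H974.bondLaw p)

/-! ### Proofs -/

/-- the open edges of the axis -/
def Ax : Set H974.Edg := {e | e.2.2 = true ∧ e.2.1 = 0 ∧ e.1 < 0}

/-- the open edges of the bulk -/
def Op (ω : H974.sqLattice.edgeSet → Bool) : Set H974.Edg := H974.opn ω ∩ H940.GP.Bulk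

theorem config_adj (ω : H974.sqLattice.edgeSet → Bool) (u v : ℤ × ℤ) :
    (config ω).Adj u v ↔ H974.Adj (Op ω ∪ Ax) u v := by
  unfold config
  rw [SimpleGraph.fromEdgeSet_adj]
  constructor
  · rintro ⟨⟨⟨h, hω⟩, h0, w, hw, hw0⟩ | ⟨x, hx, he⟩, hne⟩
    · have h1 : (H974.openGraph ω).Adj u v := by
        unfold H974.openGraph
        rw [SimpleGraph.fromEdgeSet_adj]
        exact ⟨⟨h, hω⟩, hne⟩
      obtain ⟨e, he, hc⟩ := (H974.openGraph_adj ω u v).mp h1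
      have hu := h0 u (Sym2.mem_mk_left u v)
      have hv := h0 v (Sym2.mem_mk_right u v)
      have hpos : 0 < u.2 ∨ 0 < v.2 := by
        rcases Sym2.mem_iff.mp hw with rfl | rfl
        · exact Or.inl hw0
        · exact Or.inr hw0
      refine ⟨e, Or.inl ⟨he, ?_⟩, hc⟩
      obtain ⟨x, y, _ | _⟩ := e
      · rw [H940.GP.bulk_false]
        rcases hc with ⟨a, b⟩ | ⟨a, b⟩
        · rw [← a] at hu; exact hu
        · rw [← a] at hv; exact hv
      · rw [H940.GP.bulk_true]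
        rcases hc with ⟨a, b⟩ | ⟨a, b⟩
        · rw [← a, ← b] at hpos
          simp only [H974.src_mk, H974.tgt_true] at hpos
          omega
        · rw [← a, ← b] at hpos
          simp only [H974.src_mk, H974.tgt_true] at hpos
          omega
    · refine ⟨(x, 0, true), Or.inr ⟨rfl, rfl, hx⟩, ?_⟩
      rw [Sym2.eq_iff] at he
      simp only [H974.src_mk, H974.tgt_true]
      rcases he with ⟨a, b⟩ | ⟨a, b⟩
      · exact Or.inl ⟨a.symm, b.symm⟩
      · exact Or.inr ⟨b.symm, a.symm⟩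
  · rintro ⟨e, ⟨he, hb⟩ | hax, hc⟩
    · have h1 := (H974.openGraph_adj ω u v).mpr ⟨e, he, hc⟩
      unfold H974.openGraph at h1
      rw [SimpleGraph.fromEdgeSet_adj] at h1
      obtain ⟨⟨h, hω⟩, hne⟩ := h1
      obtain ⟨x, y, _ | _⟩ := e
      · rw [H940.GP.bulk_false] at hb
        simp only [H974.src_mk, H974.tgt_false] at hc
        refine ⟨Or.inl ⟨⟨h, hω⟩, ?_, ?_⟩, hne⟩
        · intro w hw
          rcases hc with ⟨rfl, rfl⟩ | ⟨rfl, rfl⟩ <;>
            rcases Sym2.mem_iff.mp hw with rfl | rfl <;> simp only <;> omega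
        · rcases hc with ⟨rfl, rfl⟩ | ⟨rfl, rfl⟩
          · exact ⟨(x, y + 1), Sym2.mem_mk_right _ _, by simp only; omega⟩
          · exact ⟨(x, y + 1), Sym2.mem_mk_left _ _, by simp only; omega⟩
      · rw [H940.GP.bulk_true] at hb
        simp only [H974.src_mk, H974.tgt_true] at hc
        refine ⟨Or.inl ⟨⟨h, hω⟩, ?_, ?_⟩, hne⟩
        · intro w hw
          rcases hc with ⟨rfl, rfl⟩ | ⟨rfl, rfl⟩ <;>
            rcases Sym2.mem_iff.mp hw with rfl | rfl <;> simp only <;> omega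
        · rcases hc with ⟨rfl, rfl⟩ | ⟨rfl, rfl⟩
          · exact ⟨(x, y), Sym2.mem_mk_left _ _, by simp only; omega⟩
          · exact ⟨(x, y), Sym2.mem_mk_right _ _, by simp only; omega⟩
    · obtain ⟨x, y, b⟩ := e
      obtain ⟨h1, h2, h3⟩ := hax
      simp only at h1 h2 h3
      subst h1
      subst h2
      simp only [H974.src_mk, H974.tgt_true] at hc
      rcases hc with ⟨rfl, rfl⟩ | ⟨rfl, rfl⟩
      · refine ⟨Or.inr ⟨x, h3, rfl⟩, ?_⟩
        intro h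
        have := congrArg Prod.fst h
        simp only at this
        omega
      · refine ⟨Or.inr ⟨x, h3, Sym2.eq_swap⟩, ?_⟩
        intro h
        have := congrArg Prod.fst h
        simp only at this
        omega

theorem config_reach (ω : H974.sqLattice.edgeSet → Bool) (u v : ℤ × ℤ) :
    (config ω).Reachable u v ↔ H974.Reach (Op ω ∪ Ax) u v := by
  rw [SimpleGraph.reachable_iff_reflTransGen]
  have : (config ω).Adj = H974.Adj (Op ω ∪ Ax) := by
    funext u v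
    exact propext (config_adj ω u v)
  rw [this]
  rfl

theorem ax_reach (O : Set H974.Edg) (k : ℕ) :
    H974.Reach (O ∪ Ax) (0, 0) ((-(k:ℤ), 0) : ℤ × ℤ) := by
  induction k with
  | zero => simpa using H974.Reach.refl _ _
  | succ k ih =>
    refine ih.trans (H974.Adj.reach ⟨(-(k:ℤ) - 1, 0, true), Or.inr ⟨rfl, rfl, ?_⟩, Or.inr ?_⟩)
    · simp only; omega
    · simp only [H974.src_mk, H974.tgt_true, Prod.mk.injEq, and_true]
      push_cast
      constructor <;> ring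

theorem mem_Cminus (ω : H974.sqLattice.edgeSet → Bool) (v : ℤ × ℤ) :
    v ∈ Cminus ω ↔ ∃ x : ℤ, x ≤ 0 ∧ H974.Reach (Op ω) (x, 0) v := by
  show (config ω).Reachable (0, 0) v ↔ _
  rw [config_reach]
  constructor
  · intro h
    induction h with
    | refl => exact ⟨0, le_rfl, H974.Reach.refl _ _⟩
    | @tail w w' _ hs ih =>
      obtain ⟨e, he | he, hc⟩ := hs
      · obtain ⟨x, hx, hr⟩ := ih
        exact ⟨x, hx, hr.trans (H974.Adj.reach ⟨e, he, hc⟩)⟩
      · obtain ⟨x, y, b⟩ := e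
        obtain ⟨h1, h2, h3⟩ := he
        simp only at h1 h2 h3
        subst h1
        subst h2
        simp only [H974.src_mk, H974.tgt_true] at hc
        rcases hc with ⟨-, rfl⟩ | ⟨rfl, -⟩
        · exact ⟨x + 1, by omega, H974.Reach.refl _ _⟩
        · exact ⟨x, by omega, H974.Reach.refl _ _⟩
  · rintro ⟨x, hx, hr⟩
    have h1 := ax_reach (Op ω) (-x).toNat
    have h2 : -(((-x).toNat : ℕ) : ℤ) = x := by omega
    rw [h2] at h1
    exact h1.trans (hr.mono Set.subset_union_left)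

theorem reaches_iff (r : ℕ) (ω : H974.sqLattice.edgeSet → Bool) :
    Reaches r ω ↔ ∃ x : ℤ, x ≤ 0 ∧ ∃ v : ℤ × ℤ, (r:ℤ) ≤ v.1 ∧ H974.Reach (Op ω) (x, 0) v := by
  unfold Reaches
  constructor
  · rintro ⟨v, hv, hr⟩
    obtain ⟨x, hx, h⟩ := (mem_Cminus ω v).mp hv
    exact ⟨x, hx, v, hr, h⟩
  · rintro ⟨x, hx, v, hr, h⟩
    exact ⟨v, (mem_Cminus ω v).mpr ⟨x, hx, h⟩, hr⟩

theorem window {G : Set H974.Edg} {u v : ℤ × ℤ} (h : H974.Reach G u v) :
    ∃ N : ℕ, H974.Reach (G ∩ ↑(H974.RE (-(N:ℤ)) N (-(N:ℤ)) N)) u v := by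
  induction h with
  | refl => exact ⟨0, H974.Reach.refl _ _⟩
  | @tail w w' _ hs ih =>
    obtain ⟨N, hN⟩ := ih
    obtain ⟨⟨x, y, b⟩, he, hc⟩ := hs
    obtain ⟨M, hM⟩ : ∃ M : ℕ, M = N + x.natAbs + y.natAbs + 1 := ⟨_, rfl⟩
    refine ⟨M, (hN.mono ?_).trans (H974.Adj.reach ⟨(x, y, b), ⟨he, ?_⟩, hc⟩)⟩
    · apply Set.inter_subset_inter_right
      exact_mod_cast H974.RE_subset (by omega) (by omega) (by omega) (by omega)
    · cases b
      · simp only [mem_coe, H974.mem_RE_false]; omega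
      · simp only [mem_coe, H974.mem_RE_true]; omega

theorem meas_reach (u v : ℤ × ℤ) : MeasurableSet {ω | H974.Reach (Op ω) u v} := by
  have e : {ω | H974.Reach (Op ω) u v} = ⋃ N : ℕ, {ω | (fun F : Finset H974.Edg =>
      H974.Reach ((F : Set H974.Edg) ∩ H940.GP.Bulk) u v)
        (H974.FF (H974.RE (-(N:ℤ)) N (-(N:ℤ)) N) ω)} := by
    ext ω
    rw [Set.mem_iUnion]
    constructor
    · intro h
      obtain ⟨N, hN⟩ := window (show H974.Reach (Op ω) u v from h)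
      refine ⟨N, ?_⟩
      show H974.Reach ((H974.FF (H974.RE (-(N:ℤ)) N (-(N:ℤ)) N) ω : Set H974.Edg) ∩
        H940.GP.Bulk) u v
      rw [H974.FF_coe]
      apply hN.mono
      rintro e ⟨⟨h1, h2⟩, h3⟩
      exact ⟨⟨h1, h3⟩, h2⟩
    · rintro ⟨N, hN⟩
      have h : H974.Reach ((H974.FF (H974.RE (-(N:ℤ)) N (-(N:ℤ)) N) ω : Set H974.Edg) ∩
        H940.GP.Bulk) u v := hN
      rw [H974.FF_coe] at h
      apply h.mono
      rintro e ⟨⟨h1, h2⟩, h3⟩
      exact ⟨h1, h3⟩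
  rw [e]
  exact MeasurableSet.iUnion (fun N => H974.meas_event (H974.RE (-(N:ℤ)) N (-(N:ℤ)) N)
    (fun F : Finset H974.Edg => H974.Reach ((F : Set H974.Edg) ∩ H940.GP.Bulk) u v))

/-- The events are measurable. -/
theorem meas_reaches (r : ℕ) : MeasurableSet {ω | Reaches r ω} := by
  have e : {ω | Reaches r ω} = ⋃ x ∈ {x : ℤ | x ≤ 0}, ⋃ v ∈ {v : ℤ × ℤ | (r:ℤ) ≤ v.1},
      {ω | H974.Reach (Op ω) (x, 0) v} := by
    ext ω
    simp only [Set.mem_iUnion, Set.mem_setOf_eq, exists_prop]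
    exact reaches_iff r ω
  rw [e]
  exact MeasurableSet.biUnion (Set.to_countable _) (fun x _ =>
    MeasurableSet.biUnion (Set.to_countable _) (fun v _ => meas_reach _ _))

theorem winU : H940.GP.WinU := W424.NC.win_upper 3 (by norm_num)

theorem winL : H940.GP.WinL := W424.NC.win_lower 2 (by norm_num)

/-- the crossings at scale `r 2^j` in the infinite half-plane -/
def ScI (r j : ℕ) : Set (H974.sqLattice.edgeSet → Bool) :=
  {ω | H940.GP.Sc r ((r * 2 ^ j : ℕ) : ℤ)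
    (H974.FF (H974.RE ((r:ℤ) - 4 * ((r * 2 ^ j : ℕ) : ℤ)) r 0 ((r * 2 ^ j : ℕ) : ℤ)) ω)}

theorem reaches_sub {r : ℕ} (hr : 1 ≤ r) : {ω | Reaches r ω} ⊆ ⋃ j : ℕ, ScI r j := by
  intro ω hω
  obtain ⟨x, hx, v, hv, h⟩ := (reaches_iff r ω).mp hω
  rw [Set.mem_iUnion]
  obtain ⟨k, hk⟩ : ∃ k : ℕ, (r:ℤ) - x = k := ⟨((r:ℤ) - x).toNat, by omega⟩
  obtain ⟨t, ht⟩ : ∃ t : ℕ, t = k / r := ⟨_, rfl⟩
  have hkr : r ≤ k := by omega
  have ht1 : 1 ≤ t := by rw [ht]; exact (Nat.one_le_div_iff (by omega)).mpr hkr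
  have ht2 : t * r ≤ k := by rw [ht]; exact Nat.div_mul_le_self _ _
  have ht3 : k < t * r + r := by rw [ht]; exact Nat.lt_div_mul_add (by omega)
  refine ⟨Nat.log 2 t, ?_⟩
  have h1 : 2 ^ Nat.log 2 t ≤ t := Nat.pow_log_le_self 2 (by omega)
  have h2 : t < 2 ^ (Nat.log 2 t + 1) := Nat.lt_pow_succ_log_self (by norm_num) t
  obtain ⟨m, hm⟩ : ∃ m : ℕ, m = 2 ^ Nat.log 2 t := ⟨_, rfl⟩
  rw [pow_succ, ← hm] at h2
  rw [← hm] at h1
  have hm1 : 1 ≤ m := by rw [hm]; exact Nat.one_le_two_pow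
  have h3 : r * m ≤ k := by
    calc r * m = m * r := by ring
      _ ≤ t * r := Nat.mul_le_mul_right _ h1
      _ ≤ k := ht2
  have h4 : k < 2 * (r * m) := by
    have h5 : t + 1 ≤ m * 2 := h2
    calc k < t * r + r := ht3
      _ = (t + 1) * r := by ring
      _ ≤ (m * 2) * r := Nat.mul_le_mul_right _ h5
      _ = 2 * (r * m) := by ring
  have hR1 : 1 ≤ r * m := Nat.one_le_iff_ne_zero.mpr (by positivity)
  show H940.GP.Sc r ((r * 2 ^ Nat.log 2 t : ℕ) : ℤ)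
    (H974.FF (H974.RE ((r:ℤ) - 4 * ((r * 2 ^ Nat.log 2 t : ℕ) : ℤ)) r 0
      ((r * 2 ^ Nat.log 2 t : ℕ) : ℤ)) ω)
  rw [← hm]
  have h3' : ((r * m : ℕ) : ℤ) ≤ k := by exact_mod_cast h3
  have h4' : (k:ℤ) < 2 * ((r * m : ℕ) : ℤ) := by exact_mod_cast h4
  have hR1' : (1:ℤ) ≤ ((r * m : ℕ) : ℤ) := by exact_mod_cast hR1
  apply H940.GP.sc_of (O := Op ω) Set.inter_subset_right hR1' (u := (x, 0)) (v := v) rfl
    (by simp only; omega) (by simp only; omega) hv h
  rw [H974.FF_coe]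
  rintro e ⟨⟨h1, -⟩, h3⟩
  exact ⟨h1, h3⟩

theorem upper : ∃ c C : ℝ, 0 < c ∧ 0 < C ∧ ∀ p : unitInterval, (p:ℝ) ≤ 1/2 → ∀ r : ℕ, 1 ≤ r →
    prob p r ≤ C * Real.exp (-(c * (r * (1/2 - (p:ℝ))^(4/3 : ℝ)))) := by
  obtain ⟨c, C, hc, hC, hup⟩ := H940.GP.sc_pr winU
  refine ⟨c, 2 * C + Real.exp 1, hc, by positivity, ?_⟩
  intro p hp r hr
  have hδ : 0 ≤ (1/2 - (p:ℝ))^(4/3 : ℝ) := Real.rpow_nonneg (by linarith) _
  have hr0 : (1:ℝ) ≤ r := by exact_mod_cast hr
  obtain ⟨y, hy⟩ : ∃ y : ℝ, y = c * (r * (1/2 - (p:ℝ))^(4/3 : ℝ)) := ⟨_, rfl⟩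
  have hy0 : 0 ≤ y := by rw [hy]; positivity
  rw [← hy]
  have hE0 : 0 < Real.exp (-y) := Real.exp_pos _
  rcases le_total y 1 with hy1 | hy1
  · have h1 : prob p r ≤ 1 := measureReal_le_one
    have h2 : Real.exp 1 * Real.exp (-1) = 1 := by rw [← Real.exp_add]; simp
    have h3 : Real.exp (-1) ≤ Real.exp (-y) := Real.exp_le_exp.mpr (by linarith)
    calc prob p r ≤ Real.exp 1 * Real.exp (-1) := by rw [h2]; exact h1
      _ ≤ (2 * C + Real.exp 1) * Real.exp (-y) := by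
        apply mul_le_mul _ h3 (Real.exp_pos _).le (by positivity)
        linarith
  · have hE1 : Real.exp (-y) ≤ 1/2 := by
      have e1 : Real.exp (-y) ≤ Real.exp (-1) := Real.exp_le_exp.mpr (by linarith)
      have e2 : (2:ℝ) ≤ Real.exp 1 := by
        have := Real.add_one_le_exp 1
        linarith
      have e3 : Real.exp (-1) = (Real.exp 1)⁻¹ := Real.exp_neg 1
      have e4 : (Real.exp 1)⁻¹ ≤ 2⁻¹ := inv_anti₀ (by norm_num) e2
      linarith
    obtain ⟨b, hb⟩ : ∃ b : ℕ → ℝ, b = fun j => (C * Real.exp (-y)) * (Real.exp (-y)) ^ j :=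
      ⟨_, rfl⟩
    have hb0 : ∀ j, 0 ≤ b j := by intro j; rw [hb]; positivity
    have hsum : HasSum b ((C * Real.exp (-y)) * (1 - Real.exp (-y))⁻¹) := by
      rw [hb]
      exact (hasSum_geometric_of_lt_one hE0.le (by linarith)).mul_left _
    have hterm : ∀ j, (H974.bondLaw p) (ScI r j) ≤ ENNReal.ofReal (b j) := by
      intro j
      rw [← ENNReal.ofReal_toReal (measure_ne_top (H974.bondLaw p) (ScI r j))]
      apply ENNReal.ofReal_le_ofReal
      have h1 : ((H974.bondLaw p) (ScI r j)).toReal = (H974.bondLaw p).real (ScI r j) := rfl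
      rw [h1]
      unfold ScI
      rw [H974.law_event p (H974.RE ((r:ℤ) - 4 * ((r * 2 ^ j : ℕ) : ℤ)) r 0
        ((r * 2 ^ j : ℕ) : ℤ)) (H940.GP.Sc r ((r * 2 ^ j : ℕ) : ℤ))]
      have hR : 1 ≤ r * 2 ^ j := Nat.one_le_iff_ne_zero.mpr (by positivity)
      refine (hup p p.2.1 hp r (r * 2 ^ j) hR).trans ?_
      rw [hb]
      simp only
      have e1 : C * Real.exp (-y) * Real.exp (-y) ^ j = C * Real.exp (-(y * (j + 1))) := by
        rw [← Real.exp_nat_mul, mul_assoc, ← Real.exp_add]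
        congr 2
        ring
      rw [e1]
      apply mul_le_mul_of_nonneg_left _ hC.le
      apply Real.exp_le_exp.mpr
      have e2 : (j:ℝ) + 1 ≤ 2 ^ j := by
        have h5 : j + 1 ≤ 2 ^ j := Nat.lt_two_pow_self
        exact_mod_cast h5
      have e3 : c * (((r * 2 ^ j : ℕ) : ℝ) * (1/2 - (p:ℝ))^(4/3 : ℝ)) = y * 2 ^ j := by
        rw [hy]; push_cast; ring
      rw [e3]
      have := mul_le_mul_of_nonneg_left e2 hy0
      linarith
    have h1 : (H974.bondLaw p) {ω | Reaches r ω} ≤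
        ENNReal.ofReal ((C * Real.exp (-y)) * (1 - Real.exp (-y))⁻¹) := by
      calc (H974.bondLaw p) {ω | Reaches r ω} ≤ (H974.bondLaw p) (⋃ j : ℕ, ScI r j) :=
            measure_mono (reaches_sub hr)
        _ ≤ ∑' j, (H974.bondLaw p) (ScI r j) := measure_iUnion_le _
        _ ≤ ∑' j, ENNReal.ofReal (b j) := ENNReal.tsum_le_tsum hterm
        _ = ENNReal.ofReal (∑' j, b j) :=
            (ENNReal.ofReal_tsum_of_nonneg hb0 hsum.summable).symm
        _ = _ := by rw [hsum.tsum_eq]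
    have h2 : (1 - Real.exp (-y))⁻¹ ≤ 2 := by
      have : (1 - Real.exp (-y))⁻¹ ≤ (2⁻¹)⁻¹ := inv_anti₀ (by norm_num) (by linarith)
      simpa using this
    have hpos : 0 ≤ (C * Real.exp (-y)) * (1 - Real.exp (-y))⁻¹ := by
      have : 0 ≤ (1 - Real.exp (-y))⁻¹ := inv_nonneg.mpr (by linarith)
      positivity
    have h3 : prob p r ≤ (C * Real.exp (-y)) * (1 - Real.exp (-y))⁻¹ :=
      ENNReal.toReal_le_of_le_ofReal hpos h1
    refine h3.trans ?_
    have h4 : (C * Real.exp (-y)) * (1 - Real.exp (-y))⁻¹ ≤ (C * Real.exp (-y)) * 2 :=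
      mul_le_mul_of_nonneg_left h2 (by positivity)
    refine h4.trans ?_
    have h5 : 0 ≤ Real.exp 1 * Real.exp (-y) := by positivity
    linarith

theorem lower' : ∃ c C : ℝ, 0 < c ∧ 0 < C ∧ ∀ p : unitInterval, 1/4 ≤ (p:ℝ) → ∀ r : ℕ, 1 ≤ r →
    c * Real.exp (-(C * (r * (1/2 - min (p:ℝ) (1/2))^(4/3 : ℝ)))) ≤ prob p r := by
  obtain ⟨c, C, hc, hC, hlow⟩ := H940.GP.lo_pr winL
  refine ⟨c, C, hc, hC, ?_⟩
  intro p hp r hr
  refine (hlow p hp p.2.2 r hr).trans ?_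
  rw [← H974.law_event p (H974.RE (-(r:ℤ)) r 0 (r + 1)) (H940.GP.Lo r)]
  unfold prob
  apply measureReal_mono _ (measure_ne_top _ _)
  intro ω hω
  have h1 : H940.GP.Lo r (H974.FF (H974.RE (-(r:ℤ)) r 0 (r + 1)) ω) := hω
  have h2 : ((H974.FF (H974.RE (-(r:ℤ)) r 0 (r + 1)) ω : Finset H974.Edg) : Set H974.Edg) ⊆
      H974.opn ω := by
    rw [H974.FF_coe]
    exact Set.inter_subset_left
  obtain ⟨x, hx, v, hv, h⟩ := H940.GP.lo_reach (by exact_mod_cast hr) h2 h1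
  exact (reaches_iff r ω).mpr ⟨x, hx, v, hv, h⟩

theorem lower : ∃ c C : ℝ, 0 < c ∧ 0 < C ∧ ∀ p : unitInterval, 1/4 ≤ (p:ℝ) → (p:ℝ) ≤ 1/2 →
    ∀ r : ℕ, 1 ≤ r → c * Real.exp (-(C * (r * (1/2 - (p:ℝ))^(4/3 : ℝ)))) ≤ prob p r := by
  obtain ⟨c, C, hc, hC, hlow⟩ := lower'
  refine ⟨c, C, hc, hC, ?_⟩
  intro p hp0 hp1 r hr
  have := hlow p hp0 r hr
  rwa [min_eq_left hp1] at this

theorem ofReal_prob (p : unitInterval) (r : ℕ) :
    (H974.bondLaw p) {ω | Reaches r ω} = ENNReal.ofReal (prob p r) := by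
  unfold prob
  rw [measureReal_def, ENNReal.ofReal_toReal (measure_ne_top _ _)]

theorem extent_le (ω : H974.sqLattice.edgeSet → Bool) :
    extent ω ≤ ∑' r : ℕ, Set.indicator {ω | Reaches (r + 1) ω} (fun _ => (1:ℝ≥0∞)) ω := by
  unfold extent
  apply iSup₂_le
  intro v hv
  have h1 : ((v.1.toNat : ℕ) : ℝ≥0∞) = ∑ r ∈ range v.1.toNat,
      Set.indicator {ω | Reaches (r + 1) ω} (fun _ => (1:ℝ≥0∞)) ω := by
    have h2 : ∀ r ∈ range v.1.toNat,
        Set.indicator {ω | Reaches (r + 1) ω} (fun _ => (1:ℝ≥0∞)) ω = 1 := by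
      intro r hr
      rw [Finset.mem_range] at hr
      have h3 : ω ∈ {ω | Reaches (r + 1) ω} := ⟨v, hv, by push_cast; omega⟩
      rw [Set.indicator_of_mem h3]
    rw [sum_congr rfl h2]
    simp
  rw [h1]
  exact ENNReal.sum_le_tsum _

theorem mean_upper : ∃ A : ℝ, 0 < A ∧ ∀ p : unitInterval, (p:ℝ) < 1/2 →
    meanExtent p ≤ ENNReal.ofReal (A * (1/2 - (p:ℝ))^(-(4/3) : ℝ)) := by
  obtain ⟨c, C, hc, hC, hup⟩ := upper
  refine ⟨C / c, by positivity, ?_⟩
  intro p hp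
  have hδ0 : 0 < 1/2 - (p:ℝ) := by linarith
  obtain ⟨δ, hδ⟩ : ∃ δ : ℝ, δ = (1/2 - (p:ℝ))^(4/3 : ℝ) := ⟨_, rfl⟩
  have hδpos : 0 < δ := by rw [hδ]; exact Real.rpow_pos_of_pos hδ0 _
  have hinv : (1/2 - (p:ℝ))^(-(4/3) : ℝ) = δ⁻¹ := by rw [hδ, Real.rpow_neg hδ0.le]
  rw [hinv]
  obtain ⟨q, hq⟩ : ∃ q : ℝ, q = Real.exp (-(c * δ)) := ⟨_, rfl⟩
  have hq0 : 0 < q := by rw [hq]; exact Real.exp_pos _
  have hcδ : 0 < c * δ := by positivity
  have hq1 : q < 1 := by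
    rw [hq, ← Real.exp_zero]
    exact Real.exp_lt_exp.mpr (by linarith)
  have hqb : q * (1 + c * δ) ≤ 1 := by
    have e1 : 1 + c * δ ≤ Real.exp (c * δ) := by
      have := Real.add_one_le_exp (c * δ)
      linarith
    have e2 : q * Real.exp (c * δ) = 1 := by
      rw [hq, ← Real.exp_add]; simp
    calc q * (1 + c * δ) ≤ q * Real.exp (c * δ) := mul_le_mul_of_nonneg_left e1 hq0.le
      _ = 1 := e2
  have hsum : HasSum (fun r : ℕ => (C * q) * q ^ r) ((C * q) * (1 - q)⁻¹) :=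
    (hasSum_geometric_of_lt_one hq0.le hq1).mul_left _
  have h1 : meanExtent p ≤ ∑' r : ℕ, (H974.bondLaw p) {ω | Reaches (r + 1) ω} := by
    unfold meanExtent
    calc ∫⁻ ω, extent ω ∂(H974.bondLaw p)
        ≤ ∫⁻ ω, ∑' r : ℕ, Set.indicator {ω | Reaches (r + 1) ω} (fun _ => (1:ℝ≥0∞)) ω
            ∂(H974.bondLaw p) := lintegral_mono (fun ω => extent_le ω)
      _ = ∑' r : ℕ, ∫⁻ ω, Set.indicator {ω | Reaches (r + 1) ω} (fun _ => (1:ℝ≥0∞)) ω
            ∂(H974.bondLaw p) := by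
          apply lintegral_tsum
          intro r
          exact (measurable_const.indicator (meas_reaches (r + 1))).aemeasurable
      _ = ∑' r : ℕ, (H974.bondLaw p) {ω | Reaches (r + 1) ω} := by
          congr 1
          funext r
          rw [lintegral_indicator_const (meas_reaches (r + 1)), one_mul]
  have h2 : ∀ r : ℕ, (H974.bondLaw p) {ω | Reaches (r + 1) ω} ≤
      ENNReal.ofReal ((C * q) * q ^ r) := by
    intro r
    rw [ofReal_prob]
    apply ENNReal.ofReal_le_ofReal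
    refine (hup p hp.le (r + 1) (by omega)).trans (le_of_eq ?_)
    rw [← hδ, hq, ← Real.exp_nat_mul, mul_assoc, ← Real.exp_add]
    congr 2
    push_cast
    ring
  have h3 : (C * q) * (1 - q)⁻¹ ≤ C / c * δ⁻¹ := by
    have e1 : q * (1 - q)⁻¹ ≤ (c * δ)⁻¹ := by
      rw [← div_eq_mul_inv, div_le_iff₀ (by linarith), inv_mul_eq_div, le_div_iff₀ hcδ]
      linarith
    calc (C * q) * (1 - q)⁻¹ = C * (q * (1 - q)⁻¹) := by ring
      _ ≤ C * (c * δ)⁻¹ := mul_le_mul_of_nonneg_left e1 hC.le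
      _ = C / c * δ⁻¹ := by rw [mul_inv]; ring
  calc meanExtent p ≤ ∑' r : ℕ, (H974.bondLaw p) {ω | Reaches (r + 1) ω} := h1
    _ ≤ ∑' r : ℕ, ENNReal.ofReal ((C * q) * q ^ r) := ENNReal.tsum_le_tsum h2
    _ = ENNReal.ofReal (∑' r : ℕ, (C * q) * q ^ r) :=
        (ENNReal.ofReal_tsum_of_nonneg (fun r => by positivity) hsum.summable).symm
    _ = ENNReal.ofReal ((C * q) * (1 - q)⁻¹) := by rw [hsum.tsum_eq]
    _ ≤ _ := ENNReal.ofReal_le_ofReal h3

theorem le_extent {r : ℕ} {ω : H974.sqLattice.edgeSet → Bool} (h : Reaches r ω) :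
    (r:ℝ≥0∞) ≤ extent ω := by
  obtain ⟨v, hv, hr⟩ := h
  unfold extent
  refine le_trans ?_ (le_iSup₂ (f := fun (v : ℤ × ℤ) (_ : v ∈ Cminus ω) =>
    ((v.1.toNat : ℕ) : ℝ≥0∞)) v hv)
  exact_mod_cast (by omega : r ≤ v.1.toNat)

theorem mean_lower : ∃ a : ℝ, 0 < a ∧ ∀ p : unitInterval, 1/4 ≤ (p:ℝ) → (p:ℝ) < 1/2 →
    ENNReal.ofReal (a * (1/2 - (p:ℝ))^(-(4/3) : ℝ)) ≤ meanExtent p := by
  obtain ⟨c, C, hc, hC, hlow⟩ := lower
  refine ⟨c * Real.exp (-(2 * C)), by positivity, ?_⟩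
  intro p hp0 hp1
  have hδ0 : 0 < 1/2 - (p:ℝ) := by linarith
  obtain ⟨δ, hδ⟩ : ∃ δ : ℝ, δ = (1/2 - (p:ℝ))^(4/3 : ℝ) := ⟨_, rfl⟩
  have hδpos : 0 < δ := by rw [hδ]; exact Real.rpow_pos_of_pos hδ0 _
  have hδ1 : δ ≤ 1 := by
    rw [hδ]; exact Real.rpow_le_one hδ0.le (by linarith) (by norm_num)
  have hinv : (1/2 - (p:ℝ))^(-(4/3) : ℝ) = δ⁻¹ := by rw [hδ, Real.rpow_neg hδ0.le]
  rw [hinv]
  obtain ⟨N, hN⟩ : ∃ N : ℕ, N = ⌈δ⁻¹⌉₊ := ⟨_, rfl⟩
  have hi1 : 1 ≤ δ⁻¹ := (one_le_inv₀ hδpos).mpr hδ1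
  have h1 : δ⁻¹ ≤ N := by rw [hN]; exact Nat.le_ceil _
  have h2 : (N:ℝ) < δ⁻¹ + 1 := by rw [hN]; exact Nat.ceil_lt_add_one (by positivity)
  have hN1 : 1 ≤ N := by
    have : (1:ℝ) ≤ N := hi1.trans h1
    exact_mod_cast this
  have h3 : N * δ ≤ 2 := by
    have e1 : (N:ℝ) ≤ 2 * δ⁻¹ := by linarith
    have e2 := mul_le_mul_of_nonneg_right e1 hδpos.le
    have e3 : 2 * δ⁻¹ * δ = 2 := by field_simp
    linarith
  have h4 : c * Real.exp (-(2 * C)) ≤ prob p N := by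
    refine le_trans ?_ (hlow p hp0 hp1.le N hN1)
    apply mul_le_mul_of_nonneg_left _ hc.le
    apply Real.exp_le_exp.mpr
    rw [← hδ]
    have := mul_le_mul_of_nonneg_left h3 hC.le
    linarith
  have h5 : (N:ℝ≥0∞) * (H974.bondLaw p) {ω | Reaches N ω} ≤ meanExtent p := by
    unfold meanExtent
    rw [← lintegral_indicator_const (meas_reaches N)]
    apply lintegral_mono
    intro ω
    by_cases h : ω ∈ {ω | Reaches N ω}
    · rw [Set.indicator_of_mem h]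
      exact le_extent h
    · rw [Set.indicator_of_notMem h]
      exact bot_le
  refine le_trans ?_ h5
  rw [ofReal_prob, ← ENNReal.ofReal_natCast N, ← ENNReal.ofReal_mul (by positivity)]
  apply ENNReal.ofReal_le_ofReal
  rw [mul_comm]
  exact mul_le_mul h1 h4 (by positivity) (by positivity)

theorem window_thm (p : ℕ → unitInterval) :
    (∀ ε : ℝ, 0 < ε → Tendsto (fun n : ℕ => prob (p n) ⌈ε * n⌉₊) atTop (𝓝 0)) ↔
      Tendsto (fun n : ℕ => (1/2 - (p n : ℝ)) * (n:ℝ)^(3/4 : ℝ)) atTop atTop := by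
  constructor
  · intro hT
    by_contra hcon
    rw [tendsto_atTop] at hcon
    push Not at hcon
    obtain ⟨K, hK⟩ := hcon
    obtain ⟨c, C, hc, hC, hlow⟩ := lower'
    obtain ⟨d, hd⟩ : ∃ d : ℝ, d = c * Real.exp (-(C * (max K 0)^(4/3 : ℝ))) := ⟨_, rfl⟩
    have hd0 : 0 < d := by rw [hd]; positivity
    have hev1 : ∀ᶠ n : ℕ in atTop, prob (p n) ⌈(1:ℝ) * n⌉₊ < d :=
      (hT 1 one_pos).eventually (gt_mem_nhds hd0)
    obtain ⟨n, hn1, hn2, hn3, hn4⟩ := (hK.and_eventually (hev1.and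
      ((H940.GP.near_half (x := fun n => 1/2 - (p n : ℝ)) (K := K)).and
        (eventually_ge_atTop 1)))).exists
    have h1 := hn3 hn1
    rw [one_mul, Nat.ceil_natCast] at hn2
    have h2 := hlow (p n) (by linarith) n hn4
    obtain ⟨q, hq⟩ : ∃ q : ℝ, q = min (p n : ℝ) (1/2) := ⟨_, rfl⟩
    rw [← hq] at h2
    have hq1 : q ≤ 1/2 := by rw [hq]; exact min_le_right _ _
    rw [H940.GP.pow_id (by linarith)] at h2
    have h3 : (1/2 - q) * (n:ℝ)^(3/4 : ℝ) ≤ max K 0 := by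
      rcases min_cases (p n : ℝ) (1/2) with ⟨h4, -⟩ | ⟨h4, -⟩
      · rw [hq, h4]; exact hn1.le.trans (le_max_left _ _)
      · rw [hq, h4, sub_self, zero_mul]; exact le_max_right _ _
    have h4 : ((1/2 - q) * (n:ℝ)^(3/4 : ℝ))^(4/3 : ℝ) ≤ (max K 0)^(4/3 : ℝ) :=
      Real.rpow_le_rpow (mul_nonneg (by linarith) (by positivity)) h3 (by norm_num)
    have h5 : d ≤ c * Real.exp (-(C * ((1/2 - q) * (n:ℝ)^(3/4 : ℝ))^(4/3 : ℝ))) := by
      rw [hd]
      apply mul_le_mul_of_nonneg_left _ hc.le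
      apply Real.exp_le_exp.mpr
      have := mul_le_mul_of_nonneg_left h4 hC.le
      linarith
    linarith
  · intro hT ε hε
    obtain ⟨c, C, hc, hC, hup⟩ := upper
    have hlim := H940.GP.exp_tendsto hT C (c := c * ε) (by positivity)
    refine squeeze_zero' ?_ ?_ hlim
    · filter_upwards with n
      exact measureReal_nonneg
    · have hev2 : ∀ᶠ n : ℕ in atTop, 0 < (1/2 - (p n : ℝ)) * (n:ℝ)^(3/4 : ℝ) :=
        hT.eventually_gt_atTop 0
      filter_upwards [hev2, eventually_ge_atTop 1] with n hn2 hn3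
      have hn0 : (1:ℝ) ≤ n := by exact_mod_cast hn3
      have hnp : 0 < (n:ℝ)^(3/4 : ℝ) := by positivity
      have hδ0 : 0 < 1/2 - (p n : ℝ) := by
        by_contra hneg
        push Not at hneg
        nlinarith
      have f1 : ε * n ≤ (⌈ε * n⌉₊ : ℝ) := Nat.le_ceil _
      have f2 : 0 < ε * n := by positivity
      have f3 : 1 ≤ ⌈ε * n⌉₊ := Nat.one_le_iff_ne_zero.mpr (Nat.ceil_pos.mpr f2).ne'
      refine (hup (p n) (by linarith) ⌈ε * n⌉₊ f3).trans ?_
      apply mul_le_mul_of_nonneg_left _ hC.le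
      apply Real.exp_le_exp.mpr
      rw [← H940.GP.pow_id hδ0.le]
      have g3 : 0 ≤ (1/2 - (p n : ℝ))^(4/3 : ℝ) := Real.rpow_nonneg hδ0.le _
      have g4 := mul_le_mul_of_nonneg_right f1 g3
      have g5 := mul_le_mul_of_nonneg_left g4 hc.le
      linarith

/-- **The excursion of the exploration path over the positive half-axis, for `p ≤ 1/2`.**
(1) The events are measurable. (2), (3) The tails of the extent of the excursion, on the scale
`(1/2 - p)^(-4/3)`. (4) The mean extent is of the exact order `(1/2 - p)^(-4/3)`. (5) At the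
parameters `p n`, the extent divided by `n` converges to `0` in probability if and only if
`(1/2 - p n) n^(3/4)` tends to infinity. -/
theorem result :
    -- (1) measurability
    (∀ r : ℕ, MeasurableSet {ω | Reaches r ω}) ∧
    -- (2) upper bound for the tail
    (∃ c C : ℝ, 0 < c ∧ 0 < C ∧ ∀ p : unitInterval, (p:ℝ) ≤ 1/2 → ∀ r : ℕ, 1 ≤ r →
      prob p r ≤ C * Real.exp (-(c * (r * (1/2 - (p:ℝ))^(4/3 : ℝ))))) ∧
    -- (3) lower bound for the tail
    (∃ c C : ℝ, 0 < c ∧ 0 < C ∧ ∀ p : unitInterval, 1/4 ≤ (p:ℝ) → (p:ℝ) ≤ 1/2 → ∀ r : ℕ, 1 ≤ r →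
      c * Real.exp (-(C * (r * (1/2 - (p:ℝ))^(4/3 : ℝ)))) ≤ prob p r) ∧
    -- (4) the mean
    (∃ a A : ℝ, 0 < a ∧ 0 < A ∧ ∀ p : unitInterval, 1/4 ≤ (p:ℝ) → (p:ℝ) < 1/2 →
      ENNReal.ofReal (a * (1/2 - (p:ℝ))^(-(4/3) : ℝ)) ≤ meanExtent p ∧
        meanExtent p ≤ ENNReal.ofReal (A * (1/2 - (p:ℝ))^(-(4/3) : ℝ))) ∧
    -- (5) the critical window
    (∀ p : ℕ → unitInterval,
      (∀ ε : ℝ, 0 < ε → Tendsto (fun n : ℕ => prob (p n) ⌈ε * n⌉₊) atTop (𝓝 0)) ↔
        Tendsto (fun n : ℕ => (1/2 - (p n : ℝ)) * (n:ℝ)^(3/4 : ℝ)) atTop atTop) := by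
  refine ⟨meas_reaches, upper, lower, ?_, window_thm⟩
  obtain ⟨a, ha, h1⟩ := mean_lower
  obtain ⟨A, hA, h2⟩ := mean_upper
  exact ⟨a, A, ha, hA, fun p hp0 hp1 => ⟨h1 p hp0 hp1, h2 p hp1⟩⟩

end Pool.Agent.Results.MP_6c8efb_pr.OffCriticalExcursion
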